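import Pool.Agent.Q235.Cover.Main

/-!
# Covering complete geometric graphs by noncrossing paths needs more than `n / 2` paths
-/

namespace Pool.Agent.Results.MP_2ace6b_co.BeyondHalf

open Pool.Agent.Q235.Wqo Pool.Agent.Q235.Cover

/-- There is a constant `c > 1/2` (in fact `c = 27/50`) such that for arbitrarily large `n` there is
an `n`-point set `A` in general position in the plane for which every covering of the complete
geometric graph on `A` by noncrossing paths consists of at least `c n` paths. -/
theorem result : ∃ c : ℝ, 1 / 2 < c ∧ ∀ n₀ : ℕ, ∃ n ≥ n₀, ∃ A : Finset (ℝ × ℝ),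
    A.card = n ∧ Gen A ∧ ∀ (N : ℕ) (t : Fin N → ℕ) (v : Fin N → ℕ → ℝ × ℝ),
      IsCover A N t v → c * n ≤ N :=
  many_paths

end Pool.Agent.Results.MP_2ace6b_co.BeyondHalf
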